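import Pool.Agent.Helper49_Pauli.Interface

/-!
Module SYMM of MP_8cfbae_mp: the energy as a sum of squares.
-/

set_option autoImplicit false

open MeasureTheory Complex

namespace Pool.Agent.Helper49_Pauli

section

variable {D : Type} [NormedAddCommGroup D] [InnerProductSpace ℂ D] {cut L : ℝ}

/-- One component of a state. -/
def Nice (f : X3 → D) : Prop :=
  ContDiff ℝ (⊤ : ℕ∞) f ∧ HasCompactSupport f ∧
    ∃ W : Submodule ℂ D, FiniteDimensional ℂ W ∧ ∀ x, f x ∈ W

theorem Nice.add {f g : X3 → D} (hf : Nice f) (hg : Nice g) : Nice fun x => f x + g x := by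
  obtain ⟨h1, h2, W, hW, h3⟩ := hf
  obtain ⟨k1, k2, W', hW', k3⟩ := hg
  refine ⟨h1.add k1, h2.add k2, W ⊔ W', inferInstance, fun x => ?_⟩
  exact Submodule.add_mem_sup (h3 x) (k3 x)

theorem nice_zero : Nice (fun _ : X3 => (0 : D)) :=
  ⟨contDiff_const, HasCompactSupport.zero, ⊥, inferInstance, fun _ => Submodule.zero_mem _⟩

theorem Nice.sum {ι : Type*} (s : Finset ι) {f : ι → X3 → D} (hf : ∀ i ∈ s, Nice (f i)) :
    Nice fun x => ∑ i ∈ s, f i x := by
  classical
  induction s using Finset.induction_on with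
  | empty => simpa using nice_zero
  | insert a s ha ih =>
    simp only [Finset.sum_insert ha]
    exact (hf a (Finset.mem_insert_self a s)).add
      (ih fun i hi => hf i (Finset.mem_insert_of_mem hi))

theorem Nice.smul {c : X3 → ℂ} (hc : ContDiff ℝ (⊤ : ℕ∞) c) {f : X3 → D} (hf : Nice f) :
    Nice fun x => c x • f x := by
  obtain ⟨h1, h2, W, hW, h3⟩ := hf
  exact ⟨hc.smul h1, h2.smul_left, W, hW, fun x => W.smul_mem _ (h3 x)⟩

theorem Nice.map (T : D →ₗ[ℂ] D) {f : X3 → D} (hf : Nice f) : Nice fun x => T (f x) := by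
  obtain ⟨h1, h2, W, hW, h3⟩ := hf
  have := hW
  set Lc : W →L[ℂ] D := LinearMap.toContinuousLinearMap (T.comp W.subtype) with hLc
  set Pr : D →L[ℂ] W := W.orthogonalProjectionOnto with hPr
  have e : (fun x => T (f x)) = fun x => ((Lc.comp Pr).restrictScalars ℝ) (f x) := by
    funext x
    have h4 : Pr (f x) = ⟨f x, h3 x⟩ := Submodule.orthogonalProjectionOnto_mem_subspace_eq_self
      (⟨f x, h3 x⟩ : W)
    simp only [ContinuousLinearMap.coe_restrictScalars', ContinuousLinearMap.comp_apply, h4]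
    rfl
  refine ⟨?_, ?_, W.map T, inferInstance, fun x => Submodule.mem_map_of_mem (h3 x)⟩
  · rw [e]
    exact ((Lc.comp Pr).restrictScalars ℝ).contDiff.comp h1
  · exact h2.comp_left (map_zero T)

theorem Nice.deriv {f : X3 → D} (hf : Nice f) (v : X3) : Nice fun x => fderiv ℝ f x v := by
  obtain ⟨h1, h2, W, hW, h3⟩ := hf
  have := hW
  refine ⟨?_, ?_, W, hW, fun x => ?_⟩
  · exact (h1.fderiv_right (m := (⊤ : ℕ∞)) (by simp)).clm_apply contDiff_const
  · exact (h2.fderiv (𝕜 := ℝ)).comp_left (g := fun L : X3 →L[ℝ] D => L v) rfl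
  · set Pr : D →L[ℂ] D := W.subtypeL.comp W.orthogonalProjectionOnto with hPr
    have e : f = fun x => (Pr.restrictScalars ℝ) (f x) := by
      funext x
      have h4 : W.orthogonalProjectionOnto (f x) = ⟨f x, h3 x⟩ :=
        Submodule.orthogonalProjectionOnto_mem_subspace_eq_self (⟨f x, h3 x⟩ : W)
      simp only [hPr, ContinuousLinearMap.coe_restrictScalars', ContinuousLinearMap.comp_apply,
        h4]
      rfl
    have hd : HasFDerivAt f (fderiv ℝ f x) x :=
      (h1.differentiable (by simp) x).hasFDerivAt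
    have hd2 : HasFDerivAt (fun x => (Pr.restrictScalars ℝ) (f x))
        ((Pr.restrictScalars ℝ).comp (fderiv ℝ f x)) x :=
      (Pr.restrictScalars ℝ).hasFDerivAt.comp x hd
    rw [← e] at hd2
    have h5 := hd.unique hd2
    have h6 : fderiv ℝ f x v = Pr (fderiv ℝ f x v) := by
      conv_lhs => rw [h5]
      rfl
    change fderiv ℝ f x v ∈ W
    rw [h6]
    exact Submodule.coe_mem _

theorem isState_iff {psi : X3 → Fin 2 → D} : IsState psi ↔ ∀ s, Nice fun x => psi x s := by
  constructor
  · rintro ⟨h1, h2, W, hW, h3⟩ s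
    exact ⟨h1 s, h2 s, W, hW, fun x => h3 x s⟩
  · intro h
    choose W hW hW' using fun s => (h s).2.2
    refine ⟨fun s => (h s).1, fun s => (h s).2.1, W 0 ⊔ W 1, ?_, ?_⟩
    · have := hW 0
      have := hW 1
      infer_instance
    · intro x s
      fin_cases s
      · exact Submodule.mem_sup_left (hW' 0 x)
      · exact Submodule.mem_sup_right (hW' 1 x)

theorem Nice.potential {f : X3 → D} (hf : Nice f) (F : Bosons (Mode cut L) D)
    (P : Polarization L) (j : Fin 3) : Nice fun x => potential F P x j (f x) := by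
  unfold Pool.Agent.Helper49_Pauli.potential
  refine Nice.sum _ fun m _ => ?_
  refine Nice.smul contDiff_const ?_
  have hdot : ContDiff ℝ (⊤ : ℕ∞) fun x : X3 => ((dot (wave L m.1) x : ℝ) : ℂ) := by
    unfold dot
    push_cast
    refine ContDiff.sum fun j _ => ?_
    refine contDiff_const.mul ?_
    exact Complex.ofRealCLM.contDiff.comp (contDiff_apply ℝ ℝ j)
  refine Nice.add (Nice.smul ?_ (hf.map (F.a m))) (Nice.smul ?_ (hf.map (F.ad m)))
  · exact (contDiff_const.mul hdot).cexp
  · exact (contDiff_const.mul hdot).neg.cexp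

theorem Nice.cov {f : X3 → D} (hf : Nice f) (alpha : ℝ) (F : Bosons (Mode cut L) D)
    (P : Polarization L) (j : Fin 3) :
    Nice fun x => (-I) • fderiv ℝ f x (Pi.single j 1) +
      (Real.sqrt alpha : ℂ) • Pool.Agent.Helper49_Pauli.potential F P x j (f x) :=
  ((hf.deriv _).smul contDiff_const).add ((hf.potential F P j).smul contDiff_const)

theorem Nice.neg {f : X3 → D} (hf : Nice f) : Nice fun x => - f x := by
  have := hf.smul (c := fun _ => (-1 : ℂ)) contDiff_const
  simpa using this

theorem Nice.sub {f g : X3 → D} (hf : Nice f) (hg : Nice g) : Nice fun x => f x - g x := by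
  simpa [sub_eq_add_neg] using hf.add hg.neg

theorem isState_dirac {psi : X3 → Fin 2 → D} (h : IsState psi) (alpha : ℝ)
    (F : Bosons (Mode cut L) D) (P : Polarization L) : IsState (dirac alpha F P psi) := by
  rw [isState_iff] at h ⊢
  intro s
  unfold dirac pauliDot
  fin_cases s
  · exact (((h 1).cov alpha F P 0).sub (((h 1).cov alpha F P 1).smul contDiff_const)).add
      ((h 0).cov alpha F P 2)
  · exact (((h 0).cov alpha F P 0).add (((h 0).cov alpha F P 1).smul contDiff_const)).sub
      ((h 1).cov alpha F P 2)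

theorem Nice.integrable_inner {f g : X3 → D} (hf : Nice f) (hg : Nice g) :
    Integrable fun x => (inner ℂ (f x) (g x) : ℂ) := by
  refine Continuous.integrable_of_hasCompactSupport ?_ ?_
  · exact (hf.1.inner ℂ hg.1).continuous
  · refine HasCompactSupport.of_support_subset_isCompact hg.2.1 ?_
    intro x hx
    refine subset_tsupport _ ?_
    intro h0
    exact hx (by simp [h0])

theorem Nice.integral_inner_deriv {f g : X3 → D} (hf : Nice f) (hg : Nice g) (v : X3) :
    ∫ x, (inner ℂ (f x) (fderiv ℝ g x v) : ℂ) = -∫ x, (inner ℂ (fderiv ℝ f x v) (g x) : ℂ) := by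
  have h1 : Integrable fun x => (inner ℂ (f x) (fderiv ℝ g x v) : ℂ) :=
    hf.integrable_inner (hg.deriv v)
  have h2 : Integrable fun x => (inner ℂ (fderiv ℝ f x v) (g x) : ℂ) :=
    (hf.deriv v).integrable_inner hg
  have h3 : ∀ x, fderiv ℝ (fun y => (inner ℂ (f y) (g y) : ℂ)) x v =
      inner ℂ (f x) (fderiv ℝ g x v) + inner ℂ (fderiv ℝ f x v) (g x) := fun x =>
    fderiv_inner_apply ℂ (hf.1.differentiable (by simp) x) (hg.1.differentiable (by simp) x) v
  have h4 : ∫ x, fderiv ℝ (fun y => (inner ℂ (f y) (g y) : ℂ)) x v = 0 := by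
    have h5 := integral_mul_fderiv_eq_neg_fderiv_mul_of_integrable (μ := (volume : Measure X3))
      (f := fun _ : X3 => (1 : ℂ)) (g := fun y => (inner ℂ (f y) (g y) : ℂ)) (v := v)
      ?_ ?_ ?_ ?_ ?_
    · simpa using h5
    · simp
    · simp only [one_mul, h3]
      exact h1.add h2
    · simp only [one_mul]
      exact hf.integrable_inner hg
    · exact fun x _ => differentiableAt_const _
    · exact fun x _ => (hf.1.inner ℂ hg.1).differentiable (by simp) x
  simp only [h3] at h4
  rw [integral_add h1 h2] at h4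
  exact eq_neg_of_add_eq_zero_left h4

theorem inner_a (F : Bosons (Mode cut L) D) (m : Mode cut L) (u v : D) :
    (inner ℂ u (F.ad m v) : ℂ) = inner ℂ (F.a m u) v := by
  rw [← inner_conj_symm, F.adj, inner_conj_symm]

theorem potential_symm (F : Bosons (Mode cut L) D) (P : Polarization L) (x : X3) (j : Fin 3)
    (u v : D) : (inner ℂ u (potential F P x j v) : ℂ) = inner ℂ (potential F P x j u) v := by
  unfold potential
  rw [inner_sum, sum_inner]
  refine Finset.sum_congr rfl fun m _ => ?_
  rw [inner_smul_right, inner_smul_left, inner_add_right, inner_add_left, inner_smul_right,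
    inner_smul_right, inner_smul_left, inner_smul_left, inner_a, ← F.adj]
  have e1 : (starRingEnd ℂ) (cexp (I * (dot (wave L m.1) x : ℂ))) =
      cexp (-(I * (dot (wave L m.1) x : ℂ))) := by
    rw [← Complex.exp_conj]
    simp
  have e2 : (starRingEnd ℂ) (cexp (-(I * (dot (wave L m.1) x : ℂ)))) =
      cexp (I * (dot (wave L m.1) x : ℂ)) := by
    rw [← Complex.exp_conj]
    simp
  rw [e1, e2, Complex.conj_ofReal]
  ring

theorem cov_symm {f g : X3 → D} (hf : Nice f) (hg : Nice g) (alpha : ℝ)
    (F : Bosons (Mode cut L) D) (P : Polarization L) (j : Fin 3) :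
    ∫ x, (inner ℂ (f x) ((-I) • fderiv ℝ g x (Pi.single j 1) +
      (Real.sqrt alpha : ℂ) • potential F P x j (g x)) : ℂ) =
    ∫ x, (inner ℂ ((-I) • fderiv ℝ f x (Pi.single j 1) +
      (Real.sqrt alpha : ℂ) • potential F P x j (f x)) (g x) : ℂ) := by
  simp only [inner_add_right, inner_add_left, inner_smul_right, inner_smul_left]
  rw [integral_add, integral_add]
  · rw [integral_const_mul, integral_const_mul, hf.integral_inner_deriv hg]
    have h1 : ∀ x, (inner ℂ (f x) (potential F P x j (g x)) : ℂ) =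
        inner ℂ (potential F P x j (f x)) (g x) := fun x => potential_symm F P x j _ _
    simp only [h1, Complex.conj_ofReal, map_neg, Complex.conj_I, integral_const_mul, neg_neg]
    ring
  · exact ((hf.deriv _).integrable_inner hg).const_mul _
  · exact ((hf.potential F P j).integrable_inner hg).const_mul _
  · exact (hf.integrable_inner (hg.deriv _)).const_mul _
  · exact (hf.integrable_inner (hg.potential F P j)).const_mul _

theorem dirac_symm {f g : X3 → Fin 2 → D} (hf : IsState f) (hg : IsState g) (alpha : ℝ)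
    (F : Bosons (Mode cut L) D) (P : Polarization L) :
    ∫ x, ∑ s, (inner ℂ (f x s) (dirac alpha F P g x s) : ℂ) =
    ∫ x, ∑ s, (inner ℂ (dirac alpha F P f x s) (g x s) : ℂ) := by
  rw [isState_iff] at hf hg
  have key := fun (j : Fin 3) (s t : Fin 2) => cov_symm (hf s) (hg t) alpha F P j
  have i1 := fun (j : Fin 3) (s t : Fin 2) =>
    (hf s).integrable_inner ((hg t).cov alpha F P j)
  have i2 := fun (j : Fin 3) (s t : Fin 2) =>
    ((hf s).cov alpha F P j).integrable_inner (hg t)
  set Tg : Fin 3 → Fin 2 → X3 → D := fun j t x => (-I) • fderiv ℝ (fun y => g y t) x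
    (Pi.single j 1) + (Real.sqrt alpha : ℂ) • potential F P x j (g x t) with hTg
  set Tf : Fin 3 → Fin 2 → X3 → D := fun j t x => (-I) • fderiv ℝ (fun y => f y t) x
    (Pi.single j 1) + (Real.sqrt alpha : ℂ) • potential F P x j (f x t) with hTf
  have e1 : ∀ x, ∑ s, (inner ℂ (f x s) (dirac alpha F P g x s) : ℂ) =
      inner ℂ (f x 0) (Tg 0 1 x) + (-I) * inner ℂ (f x 0) (Tg 1 1 x) +
      inner ℂ (f x 0) (Tg 2 0 x) + (inner ℂ (f x 1) (Tg 0 0 x) + I * inner ℂ (f x 1) (Tg 1 0 x)
      + (-1) * inner ℂ (f x 1) (Tg 2 1 x)) := by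
    intro x
    rw [Fin.sum_univ_two]
    have h0 : dirac alpha F P g x 0 = Tg 0 1 x - I • Tg 1 1 x + Tg 2 0 x := rfl
    have h1 : dirac alpha F P g x 1 = Tg 0 0 x + I • Tg 1 0 x - Tg 2 1 x := rfl
    rw [h0, h1]
    simp only [inner_add_right, inner_sub_right, inner_smul_right]
    ring
  have e2 : ∀ x, ∑ s, (inner ℂ (dirac alpha F P f x s) (g x s) : ℂ) =
      inner ℂ (Tf 0 0 x) (g x 1) + (-I) * inner ℂ (Tf 1 0 x) (g x 1) +
      inner ℂ (Tf 2 0 x) (g x 0) + (inner ℂ (Tf 0 1 x) (g x 0) + I * inner ℂ (Tf 1 1 x) (g x 0)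
      + (-1) * inner ℂ (Tf 2 1 x) (g x 1)) := by
    intro x
    rw [Fin.sum_univ_two]
    have h0 : dirac alpha F P f x 0 = Tf 0 1 x - I • Tf 1 1 x + Tf 2 0 x := rfl
    have h1 : dirac alpha F P f x 1 = Tf 0 0 x + I • Tf 1 0 x - Tf 2 1 x := rfl
    rw [h0, h1]
    simp only [inner_add_left, inner_sub_left, inner_smul_left, Complex.conj_I]
    ring
  have int6 : ∀ A1 A2 A3 A4 A5 A6 : X3 → ℂ, Integrable A1 → Integrable A2 → Integrable A3 →
      Integrable A4 → Integrable A5 → Integrable A6 →
      ∫ x, (A1 x + (-I) * A2 x + A3 x + (A4 x + I * A5 x + (-1) * A6 x)) =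
        (∫ x, A1 x) + (-I) * (∫ x, A2 x) + (∫ x, A3 x) +
          ((∫ x, A4 x) + I * (∫ x, A5 x) + (-1) * (∫ x, A6 x)) := by
    intro A1 A2 A3 A4 A5 A6 h1 h2 h3 h4 h5 h6
    have k2 : Integrable fun x => (-I) * A2 x := h2.const_mul _
    have k5 : Integrable fun x => I * A5 x := h5.const_mul _
    have k6 : Integrable fun x => (-1) * A6 x := h6.const_mul _
    have k12 : Integrable fun x => A1 x + (-I) * A2 x := h1.add k2
    have k123 : Integrable fun x => A1 x + (-I) * A2 x + A3 x := k12.add h3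
    have k45 : Integrable fun x => A4 x + I * A5 x := h4.add k5
    have k456 : Integrable fun x => A4 x + I * A5 x + (-1) * A6 x := k45.add k6
    rw [integral_add k123 k456, integral_add k12 h3, integral_add h1 k2,
      integral_add k45 k6, integral_add h4 k5,
      integral_const_mul, integral_const_mul, integral_const_mul]
  simp only [e1, e2]
  rw [int6 _ _ _ _ _ _ (i1 0 0 1) (i1 1 0 1) (i1 2 0 0) (i1 0 1 0) (i1 1 1 0) (i1 2 1 1),
    int6 _ _ _ _ _ _ (i2 0 0 1) (i2 1 0 1) (i2 2 0 0) (i2 0 1 0) (i2 1 1 0) (i2 2 1 1)]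
  rw [key 0 0 1, key 1 0 1, key 2 0 0, key 0 1 0, key 1 1 0, key 2 1 1]

theorem Nice.fieldEnergy {f : X3 → D} (hf : Nice f) (F : Bosons (Mode cut L) D) :
    Nice fun x => fieldEnergy F (f x) := by
  unfold Pool.Agent.Helper49_Pauli.fieldEnergy
  refine Nice.sum _ fun m _ => ?_
  exact Nice.smul contDiff_const ((hf.map (F.a m)).map (F.ad m))

end

/-- MODULE SYMM. -/
theorem symm : SymmStatement := by
  intro cut L _ P alpha _ D _ _ F psi hpsi
  have hd := isState_dirac hpsi alpha F P
  have hdd := isState_dirac hd alpha F P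
  have hn := isState_iff.1 hpsi
  have hnd := isState_iff.1 hd
  have hndd := isState_iff.1 hdd
  have j1 : Integrable fun x => ∑ s, (inner ℂ (psi x s)
      (dirac alpha F P (dirac alpha F P psi) x s) : ℂ) :=
    integrable_finsetSum _ fun s _ => (hn s).integrable_inner (hndd s)
  have j2 : Integrable fun x => ∑ s, (inner ℂ (dirac alpha F P psi x s)
      (dirac alpha F P psi x s) : ℂ) :=
    integrable_finsetSum _ fun s _ => (hnd s).integrable_inner (hnd s)
  have j3 : Integrable fun x => ∑ s, (inner ℂ (psi x s) (fieldEnergy F (psi x s)) : ℂ) :=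
    integrable_finsetSum _ fun s _ => (hn s).integrable_inner ((hn s).fieldEnergy F)
  have hmain := dirac_symm hpsi hd alpha F P
  unfold energy hamiltonian
  have e1 : ∀ x, ∑ s, (inner ℂ (psi x s) ((1 / 2 : ℂ) •
      dirac alpha F P (dirac alpha F P psi) x s + fieldEnergy F (psi x s))).re =
      1 / 2 * (∑ s, (inner ℂ (psi x s) (dirac alpha F P (dirac alpha F P psi) x s) : ℂ)).re +
      (∑ s, (inner ℂ (psi x s) (fieldEnergy F (psi x s)) : ℂ)).re := by
    intro x
    rw [Complex.re_sum, Complex.re_sum, Finset.mul_sum, ← Finset.sum_add_distrib]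
    refine Finset.sum_congr rfl fun s _ => ?_
    rw [inner_add_right, inner_smul_right, Complex.add_re]
    congr 1
    have : (1 / 2 : ℂ) = ((1 / 2 : ℝ) : ℂ) := by push_cast; ring
    rw [this, Complex.re_ofReal_mul]
  simp only [e1]
  have j1r : Integrable fun x => 1 / 2 * (∑ s, (inner ℂ (psi x s)
      (dirac alpha F P (dirac alpha F P psi) x s) : ℂ)).re := (j1.re).const_mul _
  have j3r : Integrable fun x => (∑ s, (inner ℂ (psi x s) (fieldEnergy F (psi x s)) : ℂ)).re :=
    j3.re
  rw [integral_add j1r j3r, integral_const_mul]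
  have e2 : ∫ x, (∑ s, (inner ℂ (psi x s)
      (dirac alpha F P (dirac alpha F P psi) x s) : ℂ)).re =
      ∫ x, ∑ s, ‖dirac alpha F P psi x s‖ ^ 2 := by
    have h1 := integral_re j1
    have h2 := integral_re j2
    rw [hmain] at h1
    have h3 := h1.trans h2.symm
    refine h3.trans ?_
    refine integral_congr_ae (Filter.Eventually.of_forall fun x => ?_)
    simp only [RCLike.re_to_complex, Complex.re_sum]
    refine Finset.sum_congr rfl fun s _ => ?_
    exact (inner_self_eq_norm_sq (𝕜 := ℂ) _)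
  rw [e2]
  simp only [Complex.re_sum]

end Pool.Agent.Helper49_Pauli
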